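import Mathlib

-- part Pool.Agent.Lib.MP_87f021_gt.Poset
section

/-! The semilattice behind the counterexample for MP_87f021_gt. -/

namespace Pool.Agent.Lib.MP_87f021_gt

/-- Terms: a root, a free cover `p a` of `a`, and elements `w C j` attached to a chain `C`. -/
inductive T : Type
  | r : T
  | p (a : T) : T
  | w (C : ℕ → T) (j : ℕ) : T

/-- `blw y x` means `x ≤ y`. -/
def blw : T → T → Prop
  | .r, x => x = .r
  | .p a, x => x = .p a ∨ blw a x
  | .w C j, x => blw (C j) x ∨ ∃ i, i ≤ j ∧ x = .w C i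

inductive Valid : T → Prop
  | r : Valid .r
  | p {a : T} : Valid a → Valid (.p a)
  | w {C : ℕ → T} (j : ℕ) : (∀ k, Valid (C k)) → (∀ k, blw (C (k + 1)) (.p (C k))) →
      Valid (.w C j)

noncomputable def rk : T → Ordinal.{0}
  | .r => 0
  | .p a => rk a + 1
  | .w C _ => ⨆ k, (rk (C k) + 1)

lemma rk_lt_p (a : T) : rk a < rk (.p a) := by
  simp [rk]

lemma rk_lt_w (C : ℕ → T) (j k : ℕ) : rk (C k) < rk (.w C j) := by
  have h : rk (C k) + 1 ≤ rk (.w C j) := Ordinal.le_iSup (fun k => rk (C k) + 1) k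
  exact lt_of_lt_of_le (by simp) h

lemma rk_le {y x : T} (h : blw y x) : rk x ≤ rk y := by
  induction y with
  | r => rw [h]
  | p a ih =>
    rcases h with h | h
    · rw [h]
    · exact (ih h).trans (rk_lt_p a).le
  | w C j ih =>
    rcases h with h | ⟨i, -, h⟩
    · exact (ih j h).trans (rk_lt_w C j j).le
    · rw [h]; exact le_of_eq rfl

lemma not_w_below (C : ℕ → T) (i k : ℕ) : ¬ blw (C k) (.w C i) := fun h =>
  absurd (rk_le h) (not_le.mpr (rk_lt_w C i k))

lemma not_p_below (a : T) : ¬ blw a (.p a) := fun h =>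
  absurd (rk_le h) (not_le.mpr (rk_lt_p a))

lemma below_refl (x : T) : blw x x := by
  cases x with
  | r => rfl
  | p a => exact Or.inl rfl
  | w C j => exact Or.inr ⟨j, le_rfl, rfl⟩

lemma below_p (a : T) : blw (.p a) a := Or.inr (below_refl a)

lemma below_w (C : ℕ → T) (j : ℕ) : blw (.w C j) (C j) := Or.inl (below_refl _)

lemma below_ww (C : ℕ → T) {i j : ℕ} (h : i ≤ j) : blw (.w C j) (.w C i) := Or.inr ⟨i, h, rfl⟩

lemma le_of_below_ww {C : ℕ → T} {i j : ℕ} (h : blw (.w C j) (.w C i)) : i ≤ j := by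
  rcases h with h | ⟨k, hk, h⟩
  · exact absurd h (not_w_below C i j)
  · injection h with _ h2
    exact h2 ▸ hk

lemma below_trans {z : T} (hz : Valid z) : ∀ {y x : T}, blw z y → blw y x → blw z x := by
  induction hz with
  | r =>
    intro y x h1 h2
    rw [h1] at h2
    exact h2
  | p _ ih =>
    intro y x h1 h2
    rcases h1 with h1 | h1
    · rw [h1] at h2; exact h2
    · exact Or.inr (ih h1 h2)
  | @w C j _ hch ih =>
    have mono : ∀ j i, i ≤ j → ∀ x, blw (C i) x → blw (C j) x := by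
      intro j
      induction j with
      | zero =>
        intro i hi x hx
        rw [Nat.le_zero.mp hi] at hx
        exact hx
      | succ j ihj =>
        intro i hi x hx
        rcases Nat.le_succ_iff.mp hi with hi | hi
        · exact ih (j + 1) (hch j) (Or.inr (ihj i hi x hx))
        · rw [hi] at hx; exact hx
    intro y x h1 h2
    rcases h1 with h1 | ⟨i, hi, h1⟩
    · exact Or.inl (ih j h1 h2)
    · rw [h1] at h2
      rcases h2 with h2 | ⟨i', hi', h2⟩
      · exact Or.inl (mono j i hi x h2)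
      · exact Or.inr ⟨i', hi'.trans hi, h2⟩

lemma Valid.chain {C : ℕ → T} {j : ℕ} (h : Valid (.w C j)) :
    (∀ k, Valid (C k)) ∧ (∀ k, blw (C (k + 1)) (.p (C k))) := by
  cases h with
  | w _ h1 h2 => exact ⟨h1, h2⟩

lemma Valid.of_p {a : T} (h : Valid (.p a)) : Valid a := by
  cases h with
  | p h => exact h

lemma Valid.w' {C : ℕ → T} {j : ℕ} (h : Valid (.w C j)) (i : ℕ) : Valid (.w C i) :=
  Valid.w i h.chain.1 h.chain.2

lemma chain_mono {C : ℕ → T} {j0 : ℕ} (h : Valid (.w C j0)) {i j : ℕ} (hij : i ≤ j) :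
    blw (C j) (C i) := by
  induction j with
  | zero => rw [Nat.le_zero.mp hij]; exact below_refl _
  | succ j ih =>
    rcases Nat.le_succ_iff.mp hij with hi | hi
    · exact below_trans (h.chain.1 _) (h.chain.2 j) (Or.inr (ih hi))
    · rw [hi]; exact below_refl _

lemma chain_p {C : ℕ → T} {j0 : ℕ} (h : Valid (.w C j0)) {i j : ℕ} (hij : i < j) :
    blw (C j) (.p (C i)) :=
  below_trans (h.chain.1 _) (chain_mono h (Nat.succ_le_of_lt hij)) (h.chain.2 i)

lemma valid_of_below {z : T} (hz : Valid z) : ∀ {x : T}, blw z x → Valid x := by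
  induction hz with
  | r => intro x h; rw [h]; exact Valid.r
  | p ha ih =>
    intro x h
    rcases h with h | h
    · rw [h]; exact Valid.p ha
    · exact ih h
  | @w C j h1 h2 ih =>
    intro x h
    rcases h with h | ⟨i, -, h⟩
    · exact ih j h
    · rw [h]; exact Valid.w i h1 h2

lemma below_antisymm {x y : T} (hy : Valid y) (h1 : blw y x) (h2 : blw x y) : x = y := by
  cases y with
  | r => exact h1
  | p a =>
    rcases h1 with h1 | h1
    · exact h1
    · exact absurd (below_trans hy.of_p h1 h2) (not_p_below a)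
  | w C j =>
    rcases h1 with h1 | ⟨i, hi, h1⟩
    · exact absurd (below_trans (hy.chain.1 j) h1 h2) (not_w_below C j j)
    · rw [h1] at h2 ⊢
      rw [le_antisymm hi (le_of_below_ww h2)]

lemma finite_below (y : T) : {x | blw y x}.Finite := by
  induction y with
  | r => exact (Set.finite_singleton T.r).subset fun x hx => hx
  | p a ih => exact (ih.insert (T.p a)).subset fun x hx => hx
  | w C j ih =>
    refine ((ih j).union (((Set.finite_Iic j).image (fun i => T.w C i)))).subset ?_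
    rintro x (hx | ⟨i, hi, hx⟩)
    · exact Or.inl hx
    · exact Or.inr ⟨i, hi, hx.symm⟩

def IsJoin (x y m : T) : Prop :=
  Valid m ∧ blw m x ∧ blw m y ∧ ∀ u, Valid u → blw u x → blw u y → blw u m

lemma IsJoin.symm {x y m : T} (h : IsJoin x y m) : IsJoin y x m :=
  ⟨h.1, h.2.2.1, h.2.1, fun u hu h1 h2 => h.2.2.2 u hu h2 h1⟩

lemma isJoin_of_le {x y : T} (hx : Valid x) (h : blw x y) : IsJoin x y x :=
  ⟨hx, below_refl x, h, fun _ _ h1 _ => h1⟩

lemma join_aux {C : ℕ → T} {i j : ℕ} {y : T} (hC : Valid (.w C i)) (hij : i ≤ j)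
    (hy : blw (C j) y) : ∃ m, IsJoin (.w C i) y m := by
  classical
  have hex : ∃ k, i ≤ k ∧ blw (C k) y := ⟨j, hij, hy⟩
  refine ⟨.w C (Nat.find hex), hC.w' _, below_ww C (Nat.find_spec hex).1,
    Or.inl (Nat.find_spec hex).2, ?_⟩
  intro u hu
  induction hu with
  | r => intro h; exact absurd h (by simp [blw])
  | @p a ha ih =>
    intro h1 h2
    rcases h1 with h1 | h1
    · exact absurd h1 (by simp)
    rcases h2 with h2 | h2
    · exfalso
      have h3 : blw y (.w C i) := by rw [h2]; exact Or.inr h1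
      exact not_w_below C i j (below_trans (hC.chain.1 j) hy h3)
    · exact Or.inr (ih h1 h2)
  | @w D l hD1 hD2 ih =>
    intro h1 h2
    rcases h1 with h1 | ⟨i', hi', h1⟩
    · rcases h2 with h2 | ⟨l', -, h2⟩
      · exact Or.inl (ih l h1 h2)
      · exfalso
        have a1 := rk_le hy
        have a2 := rk_lt_w C i j
        have a3 := rk_le h1
        have a4 := rk_lt_w D l' l
        rw [h2] at a1
        exact absurd (a1.trans_lt (a2.trans_le a3)) (not_lt.mpr a4.le)
    · injection h1 with e1 e2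
      subst e1
      subst e2
      rcases h2 with h2 | ⟨l', -, h2⟩
      · exact below_ww C (Nat.find_min' hex ⟨hi', h2⟩)
      · rw [h2] at hy
        exact absurd hy (not_w_below C l' j)

lemma exists_join {z : T} (hz : Valid z) : ∀ {x y : T}, blw z x → blw z y →
    ∃ m, IsJoin x y m := by
  induction hz with
  | r =>
    intro x y h1 h2
    rw [h1, h2]
    exact ⟨.r, isJoin_of_le Valid.r rfl⟩
  | @p a ha ih =>
    intro x y h1 h2
    rcases h1 with h1 | h1
    · rw [h1]; exact ⟨_, isJoin_of_le (Valid.p ha) h2⟩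
    rcases h2 with h2 | h2
    · rw [h2]; exact ⟨_, (isJoin_of_le (Valid.p ha) (Or.inr h1)).symm⟩
    · exact ih h1 h2
  | @w C j h1' h2' ih =>
    intro x y h1 h2
    rcases h1 with h1 | ⟨i, hi, h1⟩
    · rcases h2 with h2 | ⟨i', hi', h2⟩
      · exact ih j h1 h2
      · rw [h2]
        obtain ⟨m, hm⟩ := join_aux (Valid.w i' h1' h2') hi' h1
        exact ⟨m, hm.symm⟩
    · rcases h2 with h2 | ⟨i', hi', h2⟩
      · rw [h1]
        exact join_aux (Valid.w i h1' h2') hi h2
      · rw [h1, h2]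
        rcases le_total i i' with h | h
        · exact ⟨_, (isJoin_of_le (Valid.w i' h1' h2') (below_ww C h)).symm⟩
        · exact ⟨_, isJoin_of_le (Valid.w i h1' h2') (below_ww C h)⟩

/-- Lemma B. -/
lemma lemB {C : ℕ → T} {i j : ℕ} {z : T} (hz : Valid z) : ∀ {y : T}, blw z y →
    blw y (.w C i) → (∀ k, y ≠ .w C k) → blw z (.w C j) → blw y (.w C j) := by
  induction hz with
  | r => intro y _ _ _ h; exact absurd h (by simp [blw])
  | @p a ha ih =>
    intro y h1 h2 h3 h4
    rcases h1 with h1 | h1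
    · rw [h1]; exact h4
    rcases h4 with h4 | h4
    · exact absurd h4 (by simp)
    · exact ih h1 h2 h3 h4
  | @w D k hD1 hD2 ih =>
    intro y h1 h2 h3 h4
    have hD : Valid (.w D k) := Valid.w k hD1 hD2
    rcases h4 with h4 | ⟨k', -, h4⟩
    · rcases h1 with h1 | ⟨m, hm, h1⟩
      · exact ih k h1 h2 h3 h4
      · subst h1
        rcases h2 with h2 | ⟨m', -, h2⟩
        · rcases hm.lt_or_eq with hm | hm
          · have := ih k (chain_p hD hm) (Or.inr h2) (by simp) h4
            rcases this with h | h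
            · exact absurd h (by simp)
            · exact Or.inl h
          · rw [hm]; exact Or.inl h4
        · injection h2 with e1 _
          subst e1
          exact absurd rfl (h3 m)
    · injection h4 with e1 _
      subst e1
      exfalso
      rcases h1 with h1 | ⟨m, -, h1⟩
      · exact not_w_below C i k (below_trans (hD1 k) h1 h2)
      · exact h3 m h1

/-- Lemma C. -/
lemma lemC {D : ℕ → T} {k : ℕ} (hD : Valid (.w D k)) {z : T} (hz : Valid z) : ∀ {y : T},
    blw z y → blw y (D k) → blw z (.w D k) → ¬ blw z (.w D (k + 1)) →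
    y = D k ∨ blw y (.w D k) := by
  induction hz with
  | r => intro y _ _ h; exact absurd h (by simp [blw])
  | @p a ha ih =>
    intro y h1 h2 h3 h4
    rcases h1 with h1 | h1
    · rw [h1]; exact Or.inr h3
    rcases h3 with h3 | h3
    · exact absurd h3 (by simp)
    · exact ih h1 h2 h3 (fun h => h4 (Or.inr h))
  | @w E l hE1 hE2 ih =>
    intro y h1 h2 h3 h4
    have hE : Valid (.w E l) := Valid.w l hE1 hE2
    rcases h3 with h3 | ⟨k', hk', h3⟩
    · rcases h1 with h1 | ⟨m, hm, h1⟩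
      · exact ih l h1 h2 h3 (fun h => h4 (Or.inl h))
      · subst h1
        rcases hm.lt_or_eq with hm | hm
        · rcases h2 with h2 | ⟨m', -, h2⟩
          · rcases ih l (chain_p hE hm) (Or.inr h2) h3 (fun h => h4 (Or.inl h)) with h | h
            · rw [← h] at h2
              exact absurd h2 (not_p_below _)
            · rcases h with h | h
              · exact absurd h (by simp)
              · exact Or.inr (Or.inl h)
          · exfalso
            have := below_trans (hE1 l) h3 (below_w D k)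
            rw [h2] at this
            exact not_w_below E m' l this
        · rw [hm]; exact Or.inr (Or.inl h3)
    · injection h3 with e1 e2
      subst e1
      subst e2
      have hl : l = k := by
        by_contra hne
        exact h4 (below_ww D (Nat.succ_le_of_lt (lt_of_le_of_ne hk' (Ne.symm hne))))
      subst hl
      rcases h1 with h1 | ⟨m, hm, h1⟩
      · exact Or.inl (below_antisymm (hE1 l) h1 h2)
      · subst h1
        rcases hm.lt_or_eq with hm | hm
        · exfalso
          rcases h2 with h2 | ⟨m', -, h2⟩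
          · exact not_p_below _ (below_trans (hE1 m) h2 (chain_p hE hm))
          · have := below_refl (D l)
            rw [h2] at this
            nth_rewrite 1 [← h2] at this
            exact not_w_below D m' l this
        · rw [hm]; exact Or.inr (below_refl _)

end Pool.Agent.Lib.MP_87f021_gt
end

-- part Pool.Agent.Lib.MP_87f021_gt.Space
section

/-! The space of maximal ideals and its non-resolvable base. -/

namespace Pool.Agent.Lib.MP_87f021_gt

open Set TopologicalSpace

structure IsIdl (I : Set T) : Prop where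
  nonempty : I.Nonempty
  valid : ∀ x ∈ I, Valid x
  down : ∀ y ∈ I, ∀ x, blw y x → x ∈ I
  dir : ∀ x ∈ I, ∀ y ∈ I, ∃ z ∈ I, blw z x ∧ blw z y

def IsMax (I : Set T) : Prop := IsIdl I ∧ ∀ K, IsIdl K → I ⊆ K → K ⊆ I

def X : Type := {I : Set T // IsMax I}

def U (a : T) : Set X := {I | a ∈ I.1}

def B : Set (Set X) := range U

instance : TopologicalSpace X := generateFrom B

lemma IsIdl.join_mem {I : Set T} (hI : IsIdl I) {a b m : T} (ha : a ∈ I) (hb : b ∈ I)
    (hm : IsJoin a b m) : m ∈ I := by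
  obtain ⟨z, hz, h1, h2⟩ := hI.dir a ha b hb
  exact hI.down z hz m (hm.2.2.2 z (hI.valid z hz) h1 h2)

lemma IsIdl.exists_join {I : Set T} (hI : IsIdl I) {a b : T} (ha : a ∈ I) (hb : b ∈ I) :
    ∃ m, IsJoin a b m := by
  obtain ⟨z, hz, h1, h2⟩ := hI.dir a ha b hb
  exact Pool.Agent.Lib.MP_87f021_gt.exists_join (hI.valid z hz) h1 h2

lemma U_join {a b m : T} (hm : IsJoin a b m) : U m = U a ∩ U b := by
  ext I
  constructor
  · intro h
    exact ⟨I.2.1.down m h a hm.2.1, I.2.1.down m h b hm.2.2.1⟩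
  · rintro ⟨h1, h2⟩
    exact I.2.1.join_mem h1 h2 hm

lemma empty_mem_B : (∅ : Set X) ∈ B := by
  refine ⟨.w (fun _ => .r) 0, ?_⟩
  ext I
  simp only [mem_empty_iff_false, iff_false]
  intro h
  have := (I.2.1.valid _ h).chain.2 0
  exact absurd this (by simp [blw])

lemma inter_mem_B : ∀ V ∈ B, ∀ W ∈ B, V ∩ W ∈ B := by
  rintro _ ⟨a, rfl⟩ _ ⟨b, rfl⟩
  rcases (U a ∩ U b).eq_empty_or_nonempty with h | ⟨I, h1, h2⟩
  · rw [h]; exact empty_mem_B
  · obtain ⟨m, hm⟩ := I.2.1.exists_join h1 h2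
    exact ⟨m, U_join hm⟩

lemma isBasis : IsTopologicalBasis B where
  exists_subset_inter := fun V hV W hW _ hx => ⟨V ∩ W, inter_mem_B V hV W hW, hx, Subset.rfl⟩
  sUnion_eq := by
    ext I
    simp only [mem_sUnion, mem_univ, iff_true]
    obtain ⟨a, ha⟩ := I.2.1.nonempty
    exact ⟨U a, ⟨a, rfl⟩, ha⟩
  eq_generateFrom := rfl

lemma isOpen_U (a : T) : IsOpen (U a) := isBasis.isOpen ⟨a, rfl⟩

lemma isClosed_U (a : T) : IsClosed (U a) := by
  rw [← isOpen_compl_iff, isBasis.isOpen_iff]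
  intro I hI
  by_contra hcon
  push Not at hcon
  have hj : ∀ b ∈ I.1, ∃ m, IsJoin a b m := by
    intro b hb
    have := hcon (U b) ⟨b, rfl⟩ hb
    rw [not_subset] at this
    obtain ⟨J, hJ1, hJ2⟩ := this
    have hJ2' : a ∈ J.1 := by simpa [U] using hJ2
    exact J.2.1.exists_join hJ2' hJ1
  let K : Set T := {x | ∃ b ∈ I.1, ∃ m, IsJoin a b m ∧ blw m x}
  have hsub : I.1 ⊆ K := by
    intro b hb
    obtain ⟨m, hm⟩ := hj b hb
    exact ⟨b, hb, m, hm, hm.2.2.1⟩
  have hK : IsIdl K := by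
    refine ⟨I.2.1.nonempty.mono hsub, ?_, ?_, ?_⟩
    · rintro x ⟨b, -, m, hm, hx⟩
      exact valid_of_below hm.1 hx
    · rintro y ⟨b, hb, m, hm, hy⟩ x hx
      exact ⟨b, hb, m, hm, below_trans hm.1 hy hx⟩
    · rintro x ⟨b, hb, m, hm, hx⟩ y ⟨b', hb', m', hm', hy⟩
      obtain ⟨c, hc, h1, h2⟩ := I.2.1.dir b hb b' hb'
      obtain ⟨n, hn⟩ := hj c hc
      refine ⟨n, ⟨c, hc, n, hn, below_refl n⟩, ?_, ?_⟩
      · exact below_trans hn.1 (hm.2.2.2 n hn.1 hn.2.1 (below_trans hn.1 hn.2.2.1 h1)) hx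
      · exact below_trans hn.1 (hm'.2.2.2 n hn.1 hn.2.1 (below_trans hn.1 hn.2.2.1 h2)) hy
  obtain ⟨b, hb⟩ := I.2.1.nonempty
  obtain ⟨m, hm⟩ := hj b hb
  exact hI (I.2.2 K hK hsub ⟨b, hb, m, hm, hm.2.1⟩)

lemma isClopen_B : ∀ V ∈ B, IsClopen V := by
  rintro _ ⟨a, rfl⟩
  exact ⟨isClosed_U a, isOpen_U a⟩

lemma t2 : T2Space X := by
  refine ⟨fun I J hne => ?_⟩
  have : ¬ I.1 ⊆ J.1 := by
    intro h
    exact hne (Subtype.ext (Subset.antisymm h (I.2.2 J.1 J.2.1 h)))
  obtain ⟨a, h1, h2⟩ := not_subset.mp this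
  exact ⟨U a, (U a)ᶜ, isOpen_U a, (isClosed_U a).isOpen_compl, h1, h2, disjoint_compl_right⟩

/-- the ideal generated by an increasing sequence -/
def gen (a : ℕ → T) : Set T := {x | ∃ n, blw (a n) x}

lemma seq_mono {a : ℕ → T} (hv : ∀ n, Valid (a n)) (h : ∀ n, blw (a (n + 1)) (a n)) {i j : ℕ}
    (hij : i ≤ j) : blw (a j) (a i) := by
  induction j with
  | zero => rw [Nat.le_zero.mp hij]; exact below_refl _
  | succ j ih =>
    rcases Nat.le_succ_iff.mp hij with hi | hi
    · exact below_trans (hv _) (h j) (ih hi)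
    · rw [hi]; exact below_refl _

lemma isIdl_gen {a : ℕ → T} (hv : ∀ n, Valid (a n)) (h : ∀ n, blw (a (n + 1)) (a n)) :
    IsIdl (gen a) := by
  refine ⟨⟨a 0, 0, below_refl _⟩, ?_, ?_, ?_⟩
  · rintro x ⟨n, hn⟩; exact valid_of_below (hv n) hn
  · rintro y ⟨n, hn⟩ x hx; exact ⟨n, below_trans (hv n) hn hx⟩
  · rintro x ⟨n, hn⟩ y ⟨m, hm⟩
    exact ⟨a (max n m), ⟨_, below_refl _⟩,
      below_trans (hv _) (seq_mono hv h (le_max_left _ _)) hn,
      below_trans (hv _) (seq_mono hv h (le_max_right _ _)) hm⟩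

lemma isMax_gen {a : ℕ → T} (hv : ∀ n, Valid (a n)) (h : ∀ n, blw (a (n + 1)) (a n))
    (hc : ∀ K, IsIdl K → gen a ⊆ K → ∀ y ∈ K, blw y (a 0) → ∃ m, y = a m) : IsMax (gen a) := by
  refine ⟨isIdl_gen hv h, fun K hK hsub y hy => ?_⟩
  obtain ⟨z, hz, h1, h2⟩ := hK.dir y hy (a 0) (hsub ⟨0, below_refl _⟩)
  obtain ⟨m, hm⟩ := hc K hK hsub z hz h2
  exact ⟨m, hm ▸ h1⟩

lemma not_all_below {a : ℕ → T} (hinj : Function.Injective a) (y : T) : ¬ ∀ n, blw y (a n) := by
  intro h
  exact infinite_range_of_injective hinj ((finite_below y).subset (by rintro _ ⟨n, rfl⟩; exact h n))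

lemma cone_w {C : ℕ → T} :
    ∀ K, IsIdl K → gen (T.w C) ⊆ K → ∀ y ∈ K, blw y (.w C 0) → ∃ m, y = .w C m := by
  intro K hK hsub y hy h0
  by_contra hcon
  push Not at hcon
  refine not_all_below (a := T.w C) (fun i j h => by injection h) y fun j => ?_
  obtain ⟨z, hz, h1, h2⟩ := hK.dir y hy (.w C j) (hsub ⟨j, below_refl _⟩)
  exact lemB (hK.valid z hz) h1 h0 hcon h2

lemma isMax_w {C : ℕ → T} (hC : Valid (.w C 0)) : IsMax (gen (T.w C)) :=
  isMax_gen (fun n => hC.w' n) (fun n => below_ww C (Nat.le_succ n)) cone_w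

def Step (x y : T) : Prop := ∃ D k, Valid (.w D k) ∧ D k = x ∧ y = .w D k

lemma Step.valid {x y : T} (h : Step x y) : Valid y := by
  obtain ⟨D, k, h1, -, h3⟩ := h
  rw [h3]; exact h1

lemma Step.blw {x y : T} (h : Step x y) : blw y x := by
  obtain ⟨D, k, -, h2, h3⟩ := h
  rw [h3, ← h2]; exact below_w D k

lemma Step.rk_lt {x y : T} (h : Step x y) : rk x < rk y := by
  obtain ⟨D, k, -, h2, h3⟩ := h
  rw [h3, ← h2]; exact rk_lt_w D k k

lemma cone_step {a : ℕ → T} (h : ∀ n, Step (a n) (a (n + 1))) :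
    ∀ K, IsIdl K → gen a ⊆ K → ∀ y ∈ K, blw y (a 0) → ∃ m, y = a m := by
  intro K hK hsub y hy h0
  by_contra hcon
  push Not at hcon
  have hmono : StrictMono (fun n => rk (a n)) := strictMono_nat_of_lt_succ fun n => (h n).rk_lt
  have hinj : Function.Injective a := fun i j hij => hmono.injective (by simp only [hij])
  refine not_all_below hinj y fun n => ?_
  induction n with
  | zero => exact h0
  | succ n ih =>
    obtain ⟨D, k, hD, e1, e2⟩ := h n
    obtain ⟨E, l, hE, e3, e4⟩ := h (n + 1)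
    obtain ⟨z, hz, h1, h2⟩ := hK.dir y hy (a (n + 1 + 1)) (hsub ⟨_, below_refl _⟩)
    have hz' := hK.valid z hz
    have h3 : blw (a (n + 1 + 1)) (.w D k) := e2 ▸ (h (n + 1)).blw
    have hED : E ≠ D := by
      intro hED
      rw [hED, e2] at e3
      have := below_refl (D l)
      nth_rewrite 2 [e3] at this
      exact not_w_below D k l this
    have h4 : ¬ blw z (.w D (k + 1)) := by
      intro h5
      have h6 := lemB hz' h2 h3 (fun k' hk' => by
        rw [e4] at hk'
        injection hk' with e _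
        exact hED e) h5
      rw [e4] at h6
      rcases h6 with h6 | ⟨i, -, h6⟩
      · rw [e3, e2] at h6
        exact absurd (le_of_below_ww h6) (by omega)
      · injection h6 with e _
        exact hED e.symm
    rcases lemC hD hz' h1 (e1 ▸ ih) (below_trans hz' h2 h3) h4 with h7 | h7
    · exact absurd (h7.trans e1) (hcon n)
    · exact e2 ▸ h7

lemma valid_iter {a : T} (ha : Valid a) (n : ℕ) : Valid (T.p^[n] a) := by
  induction n with
  | zero => exact ha
  | succ n ih => rw [Function.iterate_succ_apply']; exact Valid.p ih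

lemma valid_w_iter {a : T} (ha : Valid a) : Valid (.w (fun n => T.p^[n] a) 0) :=
  Valid.w 0 (valid_iter ha) fun k => by
    simp only [Function.iterate_succ_apply']
    exact below_refl _

lemma nonempty_X : Nonempty X := ⟨⟨_, isMax_w (valid_w_iter Valid.r)⟩⟩

lemma no_isolated (I : X) : ¬ IsOpen ({I} : Set X) := by
  intro h
  obtain ⟨_, ⟨a, rfl⟩, ha, hsub⟩ := isBasis.isOpen_iff.mp h I rfl
  have hv : Valid a := I.2.1.valid a ha
  let J1 : X := ⟨_, isMax_w (valid_w_iter hv)⟩
  let J2 : X := ⟨_, isMax_w (valid_w_iter (Valid.p hv))⟩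
  have h1 : J1 ∈ U a := ⟨0, Or.inl (below_refl a)⟩
  have h2 : J2 ∈ U a := ⟨0, Or.inl (below_p a)⟩
  have h3 : J1 = J2 := (hsub h1).trans (hsub h2).symm
  have h4 : T.w (fun n => T.p^[n] a) 0 ∈ J2.1 := by
    rw [← h3]; exact ⟨0, below_refl _⟩
  obtain ⟨j, hj⟩ := h4
  rcases hj with hj | ⟨i, -, hj⟩
  · exact not_w_below (fun n => T.p^[n] a) 0 (j + 1) hj
  · injection hj with e _
    have e0 : a = T.p a := congrFun e 0
    have := below_refl a
    nth_rewrite 2 [e0] at this
    exact not_p_below a this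

/-- If a point has a cone avoiding a subfamily `B1` of `B`, then `B1` is not a base. -/
lemma not_basis_of_cone {B1 : Set (Set X)} (hsub : B1 ⊆ B) (I : X) {a : T} (ha : a ∈ I.1)
    (hc : ∀ b ∈ I.1, blw b a → U b ∉ B1) : ¬ IsTopologicalBasis B1 := by
  intro hB
  obtain ⟨V, hV, hI, hVa⟩ := hB.isOpen_iff.mp (isOpen_U a) I ha
  obtain ⟨b, rfl⟩ := hsub hV
  obtain ⟨m, hm⟩ := I.2.1.exists_join ha hI
  have h1 : U m = U b := by rw [U_join hm]; exact inter_eq_right.mpr hVa
  exact hc m (I.2.1.join_mem ha hI hm) hm.2.1 (h1 ▸ hV)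

theorem mono_cone (c : T → Prop) : ∃ (I : X) (a : T) (P : Prop), a ∈ I.1 ∧
    ∀ b ∈ I.1, blw b a → (c b ↔ P) := by
  by_cases H : ∀ x, Valid x → ∃ t, Valid t ∧ blw t x ∧ ∀ y, Step t y → ¬ (c y ↔ c t)
  · choose! τ hτ1 hτ2 hτ3 using H
    let s : ℕ → T := fun n => Nat.rec (τ .r) (fun _ t => τ (.p t)) n
    have hs0 : s 0 = τ .r := rfl
    have hsS : ∀ n, s (n + 1) = τ (.p (s n)) := fun n => rfl
    have hv : ∀ n, Valid (s n) := by
      intro n
      induction n with
      | zero => exact hτ1 _ Valid.r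
      | succ n ih => exact hτ1 _ (Valid.p ih)
    have hp : ∀ n, blw (s (n + 1)) (.p (s n)) := fun n => hτ2 _ (Valid.p (hv n))
    have hterm : ∀ n y, Step (s n) y → ¬ (c y ↔ c (s n)) := by
      intro n
      cases n with
      | zero => exact hτ3 _ Valid.r
      | succ n => exact hτ3 _ (Valid.p (hv n))
    have hfr : ∃ Q : Prop, ∃ᶠ n in Filter.atTop, (c (s n) ↔ Q) := by
      by_cases h : ∃ᶠ n in Filter.atTop, c (s n)
      · exact ⟨True, by simpa using h⟩
      · rw [Filter.not_frequently] at h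
        exact ⟨False, by simpa using h.frequently⟩
    obtain ⟨Q, hQ⟩ := hfr
    obtain ⟨φ, hφ, hφQ⟩ := Filter.extraction_of_frequently_atTop hQ
    have hC : Valid (.w (fun n => s (φ n)) 0) := by
      refine Valid.w 0 (fun k => hv _) fun k => ?_
      have hstep : ∀ n, blw (s (n + 1)) (s n) := fun n =>
        below_trans (hv (n + 1)) (hp n) (below_p (s n))
      exact below_trans (hv (φ (k + 1))) (seq_mono hv hstep
        (Nat.succ_le_of_lt (hφ (Nat.lt_succ_self k)))) (hp (φ k))
    refine ⟨⟨_, isMax_w hC⟩, .w (fun n => s (φ n)) 0, ¬ Q, ⟨0, below_refl _⟩, fun b hb hb0 => ?_⟩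
    obtain ⟨m, hm⟩ := cone_w _ (isMax_w hC).1 Subset.rfl b hb hb0
    have h1 := hterm (φ m) b ⟨fun n => s (φ n), m, hC.w' m, rfl, hm⟩
    have h2 := hφQ m
    tauto
  · push Not at H
    obtain ⟨x, hx, H⟩ := H
    have H' : ∀ t : {t // Valid t ∧ blw t x}, ∃ y : {t // Valid t ∧ blw t x},
        Step t.1 y.1 ∧ (c y.1 ↔ c t.1) := by
      rintro ⟨t, h1, h2⟩
      obtain ⟨y, h3, h4⟩ := H t h1 h2
      exact ⟨⟨y, h3.valid, below_trans h3.valid h3.blw h2⟩, h3, h4⟩
    choose g hg1 hg2 using H'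
    let a : ℕ → T := fun n => (g^[n] ⟨x, hx, below_refl x⟩).1
    have hstep : ∀ n, Step (a n) (a (n + 1)) := by
      intro n
      simp only [a, Function.iterate_succ_apply']
      exact hg1 _
    have hcol : ∀ n, c (a n) ↔ c x := by
      intro n
      induction n with
      | zero => exact Iff.rfl
      | succ n ih =>
        refine Iff.trans ?_ ih
        simp only [a, Function.iterate_succ_apply']
        exact hg2 _
    have hv : ∀ n, Valid (a n) := fun n => (g^[n] ⟨x, hx, below_refl x⟩).2.1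
    have hmax : IsMax (gen a) := isMax_gen hv (fun n => (hstep n).blw) (cone_step hstep)
    refine ⟨⟨_, hmax⟩, a 0, c x, ⟨0, below_refl _⟩, fun b hb hb0 => ?_⟩
    obtain ⟨m, hm⟩ := cone_step hstep _ hmax.1 Subset.rfl b hb hb0
    rw [hm]
    exact hcol m

theorem not_resolvable (B0 B1 : Set (Set X)) (hU : B0 ∪ B1 = B) (hd : Disjoint B0 B1) :
    ¬ (IsTopologicalBasis B0 ∧ IsTopologicalBasis B1) := by
  rintro ⟨h0, h1⟩
  obtain ⟨I, a, P, ha, hc⟩ := mono_cone (fun b => U b ∈ B0)
  by_cases hP : P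
  · refine not_basis_of_cone (hU ▸ subset_union_right) I ha (fun b hb hba hB1 => ?_) h1
    exact disjoint_left.mp hd ((hc b hb hba).mpr hP) hB1
  · refine not_basis_of_cone (hU ▸ subset_union_left) I ha (fun b hb hba hB0 => ?_) h0
    exact hP ((hc b hb hba).mp hB0)

end Pool.Agent.Lib.MP_87f021_gt
end
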